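import Pool.Agent.H961R2.Lev.Stubs

/-! Task M4 of the project LEV (helper961): dependence of the model on `δ`. -/

open MeasureTheory Set Filter Topology InnerProductSpace Complex

namespace H782Lev

open H961Lev

theorem M4_kp_pos {δ : ℝ} (h0 : 0 < δ) (h1 : δ < 1) : 0 < kp δ := by
  unfold kp
  apply Real.sin_pos_of_pos_of_lt_pi
  · positivity
  · nlinarith [Real.pi_pos]

theorem M4_kp_mono {δ δ' : ℝ} (h0 : 0 < δ') (h : δ' ≤ δ) (h1 : δ < 1) : kp δ' ≤ kp δ := by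
  unfold kp
  have hpi := Real.pi_pos
  apply Real.sin_le_sin_of_le_of_le_pi_div_two
  · have : 0 < Real.pi * δ' / 2 := by positivity
    linarith
  · nlinarith
  · have : Real.pi * δ' ≤ Real.pi * δ := mul_le_mul_of_nonneg_left h hpi.le
    linarith

theorem M4_abs (c : ℝ) {k : ℝ} (hk : 0 < k) : |c - k| + |c + k| = 2 * max |c| k := by
  rcases abs_cases (c - k) with ⟨h1, h2⟩ | ⟨h1, h2⟩ <;>
  rcases abs_cases (c + k) with ⟨h3, h4⟩ | ⟨h3, h4⟩ <;>
  rcases abs_cases c with ⟨h5, h6⟩ | ⟨h5, h6⟩ <;>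
  rcases max_cases |c| k with ⟨h7, h8⟩ | ⟨h7, h8⟩ <;>
  linarith

theorem M4_arg {k k' c : ℝ} (hk' : 0 < k') (h : k' ≤ k) :
    (|c - k| + |c + k|) / (2 * k) ≤ (|c - k'| + |c + k'|) / (2 * k') := by
  have hk : 0 < k := lt_of_lt_of_le hk' h
  rw [M4_abs c hk, M4_abs c hk', mul_div_mul_left _ _ (two_ne_zero), mul_div_mul_left _ _
    (two_ne_zero), div_le_div_iff₀ hk hk']
  rw [max_mul_of_nonneg _ _ hk'.le, max_mul_of_nonneg _ _ hk.le]
  apply max_le
  · exact le_max_of_le_left (mul_le_mul_of_nonneg_left h (abs_nonneg c))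
  · exact le_max_of_le_right (by rw [mul_comm])

theorem M4_arg_ge (w : ℂ) {k : ℝ} (hk : 0 < k) :
    1 ≤ (‖w - (k : ℂ)‖ + ‖w + (k : ℂ)‖) / (2 * k) := by
  rw [le_div_iff₀ (by positivity), one_mul]
  have h1 : ‖(w + (k : ℂ)) - (w - (k : ℂ))‖ ≤ ‖w + (k : ℂ)‖ + ‖w - (k : ℂ)‖ := norm_sub_le _ _
  have h2 : (w + (k : ℂ)) - (w - (k : ℂ)) = ((2 * k : ℝ) : ℂ) := by push_cast; ring
  rw [h2, Complex.norm_real, Real.norm_eq_abs, abs_of_pos (by positivity)] at h1
  linarith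

theorem T_M4 : S_M4 := by
  intro δ h0 h1
  refine ⟨?_, ?_⟩
  · intro δ' x hδ' hle
    have hk' := M4_kp_pos hδ' (lt_of_le_of_lt hle h1)
    have hk := M4_kp_pos h0 h1
    unfold Ut
    apply div_le_div_of_nonneg_right _ Real.pi_pos.le
    rw [Real.arcosh_le_arcosh]
    · have hc : Complex.cos (Real.pi * (x : ℂ)) = ((Real.cos (Real.pi * x) : ℝ) : ℂ) := by
        push_cast
        rfl
      rw [hc]
      have e : ∀ k : ℝ, ‖((Real.cos (Real.pi * x) : ℝ) : ℂ) - (k : ℂ)‖ =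
          |Real.cos (Real.pi * x) - k| := by
        intro k
        rw [← Complex.ofReal_sub, Complex.norm_real, Real.norm_eq_abs]
      have e' : ∀ k : ℝ, ‖((Real.cos (Real.pi * x) : ℝ) : ℂ) + (k : ℂ)‖ =
          |Real.cos (Real.pi * x) + k| := by
        intro k
        rw [← Complex.ofReal_add, Complex.norm_real, Real.norm_eq_abs]
      rw [e, e, e', e']
      exact M4_arg hk' (M4_kp_mono hδ' hle h1)
    · exact lt_of_lt_of_le one_pos (M4_arg_ge _ hk)
    · exact lt_of_lt_of_le one_pos (M4_arg_ge _ hk')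
  · intro z
    have hk := M4_kp_pos h0 h1
    have hkc : Continuous kp := by
      unfold kp
      fun_prop
    have hcont : ContinuousAt (fun δ' : ℝ => (‖Complex.cos (Real.pi * z) - (kp δ' : ℂ)‖ +
        ‖Complex.cos (Real.pi * z) + (kp δ' : ℂ)‖) / (2 * kp δ')) δ := by
      apply ContinuousAt.div
      · have hkc' : Continuous (fun δ' : ℝ => ((kp δ' : ℝ) : ℂ)) :=
          Complex.continuous_ofReal.comp hkc
        exact (((continuous_const.sub hkc').norm).add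
          ((continuous_const.add hkc').norm)).continuousAt
      · exact (continuous_const.mul hkc).continuousAt
      · positivity
    have hmem : (‖Complex.cos (Real.pi * z) - (kp δ : ℂ)‖ +
        ‖Complex.cos (Real.pi * z) + (kp δ : ℂ)‖) / (2 * kp δ) ∈ Ici (1 : ℝ) :=
      M4_arg_ge _ hk
    have hev : ∀ᶠ δ' in 𝓝[<] δ, (‖Complex.cos (Real.pi * z) - (kp δ' : ℂ)‖ +
        ‖Complex.cos (Real.pi * z) + (kp δ' : ℂ)‖) / (2 * kp δ') ∈ Ici (1 : ℝ) := by
      filter_upwards [Ioo_mem_nhdsLT h0] with δ' hδ'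
      exact M4_arg_ge _ (M4_kp_pos hδ'.1 (hδ'.2.trans h1))
    have ht : Tendsto (fun δ' : ℝ => (‖Complex.cos (Real.pi * z) - (kp δ' : ℂ)‖ +
        ‖Complex.cos (Real.pi * z) + (kp δ' : ℂ)‖) / (2 * kp δ')) (𝓝[<] δ)
        (𝓝[Ici 1] ((‖Complex.cos (Real.pi * z) - (kp δ : ℂ)‖ +
        ‖Complex.cos (Real.pi * z) + (kp δ : ℂ)‖) / (2 * kp δ))) :=
      tendsto_nhdsWithin_iff.2 ⟨hcont.tendsto.mono_left nhdsWithin_le_nhds, hev⟩
    have h2 := (Real.continuousOn_arcosh.continuousWithinAt hmem).tendsto.comp ht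
    exact h2.div_const Real.pi

end H782Lev
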