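import Mathlib

/-!
The potential and the integrable map (Suris), on the line.
-/

open Filter Topology Set Real
open scoped ContDiff

namespace Pool.Agent.H782R2.Std

noncomputable section

/-- real part of `1 + d e^{2π i x}` -/
def pA (d x : ℝ) : ℝ := 1 + d * cos (2 * π * x)
/-- imaginary part of `1 + d e^{2π i x}` -/
def pB (d x : ℝ) : ℝ := d * sin (2 * π * x)
/-- argument of `1 + d e^{2π i x}` -/
def phi (d x : ℝ) : ℝ := arctan (pB d x / pA d x)
/-- modulus of `1 + d e^{2π i x}` -/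
def rho (d x : ℝ) : ℝ := √(pA d x ^ 2 + pB d x ^ 2)
/-- the potential on the line -/
def V0 (d x : ℝ) : ℝ := -(2 / π) * phi d x
def ac (d c x : ℝ) : ℝ := arccos (c / rho d x)
/-- the circle map -/
def gg (d c x : ℝ) : ℝ := x + (ac d c x - phi d x) / π
/-- the invariant graph -/
def RR (d c x : ℝ) : ℝ := (ac d c x + phi d x) / π

variable {d : ℝ}

lemma pA_pos (h0 : 0 < d) (h1 : d < 1) (x : ℝ) : 0 < pA d x := by
  unfold pA
  have := neg_one_le_cos (2 * π * x)
  nlinarith

lemma two_pi_add_one (x : ℝ) : 2 * π * (x + 1) = 2 * π * x + 2 * π := by ring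

lemma pA_per (x : ℝ) : pA d (x + 1) = pA d x := by
  unfold pA; rw [two_pi_add_one, cos_add_two_pi]
lemma pB_per (x : ℝ) : pB d (x + 1) = pB d x := by
  unfold pB; rw [two_pi_add_one, sin_add_two_pi]
lemma phi_per (x : ℝ) : phi d (x + 1) = phi d x := by
  unfold phi; rw [pA_per, pB_per]
lemma rho_per (x : ℝ) : rho d (x + 1) = rho d x := by
  unfold rho; rw [pA_per, pB_per]
lemma V0_per (x : ℝ) : V0 d (x + 1) = V0 d x := by
  unfold V0; rw [phi_per]
lemma RR_per (c x : ℝ) : RR d c (x + 1) = RR d c x := by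
  unfold RR ac; rw [phi_per, rho_per]
lemma gg_per (c x : ℝ) : gg d c (x + 1) = gg d c x + 1 := by
  unfold gg ac; rw [phi_per, rho_per]; ring

lemma rho_sq (x : ℝ) : rho d x ^ 2 = 1 + 2 * d * cos (2 * π * x) + d ^ 2 := by
  unfold rho
  rw [sq_sqrt (by positivity)]
  unfold pA pB
  have := sin_sq_add_cos_sq (2 * π * x)
  linear_combination d ^ 2 * this

lemma rho_ge (h0 : 0 < d) (h1 : d < 1) (x : ℝ) : 1 - d ≤ rho d x := by
  have h := rho_sq (d := d) x
  have h2 : 0 ≤ rho d x := sqrt_nonneg _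
  have h3 := neg_one_le_cos (2 * π * x)
  refine abs_le_of_sq_le_sq' ?_ h2 |>.2
  rw [h]
  nlinarith

lemma rho_pos (h0 : 0 < d) (h1 : d < 1) (x : ℝ) : 0 < rho d x :=
  lt_of_lt_of_le (by linarith) (rho_ge h0 h1 x)

lemma rho_cos (h0 : 0 < d) (h1 : d < 1) (x : ℝ) : rho d x * cos (phi d x) = pA d x := by
  have hA := pA_pos h0 h1 x
  unfold phi rho
  rw [cos_arctan]
  have h2 : 1 + (pB d x / pA d x) ^ 2 = (pA d x ^ 2 + pB d x ^ 2) / pA d x ^ 2 := by
    field_simp
  rw [h2, sqrt_div (by positivity), sqrt_sq hA.le]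
  have h3 : 0 < √(pA d x ^ 2 + pB d x ^ 2) := sqrt_pos.2 (by positivity)
  field_simp

lemma rho_sin (h0 : 0 < d) (h1 : d < 1) (x : ℝ) : rho d x * sin (phi d x) = pB d x := by
  have hA := pA_pos h0 h1 x
  have h2 : sin (phi d x) = pB d x / pA d x * cos (phi d x) := by
    unfold phi
    rw [sin_arctan, cos_arctan]; ring
  rw [h2]
  have := rho_cos h0 h1 x
  calc rho d x * (pB d x / pA d x * cos (phi d x)) = pB d x / pA d x * (rho d x * cos (phi d x)) := by ring
    _ = pB d x := by rw [this]; field_simp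

lemma alg_ineq {d r B C c sa ca : ℝ} (h0 : 0 < d) (h1 : d < 1) (hr : 0 < r)
    (hr2 : r ^ 2 = 1 + 2 * d * C + d ^ 2) (hB : B ^ 2 = d ^ 2 * (1 - C ^ 2)) (hC : -1 ≤ C)
    (hc : |c| < 1 - d) (hsa : 0 < sa) (hca : r * ca = c) (hsc : sa ^ 2 + ca ^ 2 = 1) :
    0 < (1 - d ^ 2) * sa - 2 * B * ca := by
  have hd : 0 < 1 - d ^ 2 := by nlinarith
  have hr2' : 0 < r ^ 2 := by positivity
  have g1 : r ^ 2 * sa ^ 2 = r ^ 2 - c ^ 2 := by
    rw [← hca]; linear_combination r ^ 2 * hsc
  have id1 : (1 - d ^ 2) ^ 2 + 4 * B ^ 2 = r ^ 2 * (1 - 2 * d * C + d ^ 2) := by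
    rw [hr2, hB]; ring
  have hc2 : c ^ 2 < (1 - d) ^ 2 := by
    rw [← sq_abs c]
    exact pow_lt_pow_left₀ hc (abs_nonneg c) two_ne_zero
  have hq : 1 - 2 * d * C + d ^ 2 ≤ (1 + d) ^ 2 := by nlinarith
  have hk : c ^ 2 * (1 - 2 * d * C + d ^ 2) < (1 - d ^ 2) ^ 2 := by
    have : (1 - d ^ 2) ^ 2 = (1 - d) ^ 2 * (1 + d) ^ 2 := by ring
    rw [this]
    calc c ^ 2 * (1 - 2 * d * C + d ^ 2) ≤ c ^ 2 * (1 + d) ^ 2 :=
          mul_le_mul_of_nonneg_left hq (sq_nonneg _)
      _ < (1 - d) ^ 2 * (1 + d) ^ 2 := mul_lt_mul_of_pos_right hc2 (by positivity)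
  have g4 : r ^ 2 * (2 * B * ca) ^ 2 < r ^ 2 * ((1 - d ^ 2) * sa) ^ 2 := by
    have g2 : r ^ 2 * (2 * B * ca) ^ 2 = 4 * B ^ 2 * c ^ 2 := by rw [← hca]; ring
    have g3 : r ^ 2 * ((1 - d ^ 2) * sa) ^ 2 = (1 - d ^ 2) ^ 2 * (r ^ 2 - c ^ 2) := by
      rw [← g1]; ring
    rw [g2, g3]
    have e5 : (1 - d ^ 2) ^ 2 * (r ^ 2 - c ^ 2) - 4 * B ^ 2 * c ^ 2 =
        r ^ 2 * ((1 - d ^ 2) ^ 2 - c ^ 2 * (1 - 2 * d * C + d ^ 2)) := by
      linear_combination (-c ^ 2) * id1
    have : 0 < r ^ 2 * ((1 - d ^ 2) ^ 2 - c ^ 2 * (1 - 2 * d * C + d ^ 2)) :=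
      mul_pos hr2' (by linarith)
    linarith
  have hsq := lt_of_mul_lt_mul_left g4 hr2'.le
  have h3 : 0 ≤ (1 - d ^ 2) * sa := by positivity
  have h4 := abs_lt_of_sq_lt_sq hsq h3
  have := (abs_lt.1 h4).2
  linarith

/-- invariance of the graph -/
lemma invar (h0 : 0 < d) (h1 : d < 1) {c : ℝ} (hc : |c| < 1 - d) (x : ℝ) :
    RR d c (gg d c x) = (ac d c x - phi d x) / π := by
  have hr := rho_pos h0 h1 x
  have hr' := rho_pos h0 h1 (gg d c x)
  set a := ac d c x with ha
  set φ := phi d x with hφ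
  set φ' := phi d (gg d c x) with hφ'
  set b := a - φ with hb
  have hcr : |c / rho d x| < 1 := by
    rw [abs_div, abs_of_pos hr, div_lt_one hr]
    exact hc.trans_le (rho_ge h0 h1 x)
  have hcr' : |c / rho d (gg d c x)| < 1 := by
    rw [abs_div, abs_of_pos hr', div_lt_one hr']
    exact hc.trans_le (rho_ge h0 h1 _)
  obtain ⟨hcr1, hcr2⟩ := abs_lt.1 hcr
  have hcosa : rho d x * cos a = c := by
    rw [ha, ac, cos_arccos hcr1.le hcr2.le]
    field_simp
  have ha0 : 0 < a := by rw [ha, ac, arccos_pos]; exact hcr2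
  have haπ : a < π := by
    rw [ha, ac]
    refine lt_of_le_of_ne (arccos_le_pi _) fun h => ?_
    rw [arccos_eq_pi] at h
    linarith
  have hsina : 0 < sin a := sin_pos_of_pos_of_lt_pi ha0 haπ
  have h2 : 2 * π * gg d c x = 2 * π * x + 2 * b := by
    unfold gg
    rw [← ha, ← hφ, ← hb]
    field_simp
  have hA' : pA d (gg d c x) = 1 + d * cos (2 * π * x + 2 * b) := by unfold pA; rw [h2]
  have hB' : pB d (gg d c x) = d * sin (2 * π * x + 2 * b) := by unfold pB; rw [h2]
  have e1 := rho_cos h0 h1 x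
  have e2 := rho_sin h0 h1 x
  have e1' := rho_cos h0 h1 (gg d c x)
  have e2' := rho_sin h0 h1 (gg d c x)
  rw [← hφ] at e1 e2
  rw [← hφ'] at e1' e2'
  have t1 : cos (2 * π * x + 2 * b) * cos b + sin (2 * π * x + 2 * b) * sin b
      = cos (2 * π * x + b) := by
    rw [← cos_sub]; congr 1; ring
  have t2 : sin (2 * π * x + 2 * b) * cos b - cos (2 * π * x + 2 * b) * sin b
      = sin (2 * π * x + b) := by
    rw [← sin_sub]; congr 1; ring
  have t3 : cos (2 * π * x + b) = cos (2 * π * x) * cos b - sin (2 * π * x) * sin b := cos_add _ _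
  have t4 : sin (2 * π * x + b) = sin (2 * π * x) * cos b + cos (2 * π * x) * sin b := sin_add _ _
  have t5 : cos a = cos b * cos φ - sin b * sin φ := by rw [← cos_add, hb]; ring_nf
  have hcos' : rho d (gg d c x) * cos (b - φ') = c := by
    rw [cos_sub]
    have : rho d (gg d c x) * (cos b * cos φ' + sin b * sin φ') =
        pA d (gg d c x) * cos b + pB d (gg d c x) * sin b := by
      rw [← e1', ← e2']; ring
    rw [this, hA', hB']
    have e3 : c = pA d x * cos b - pB d x * sin b := by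
      rw [← hcosa, t5, ← e1, ← e2]; ring
    rw [e3]
    unfold pA pB
    linear_combination d * t1 + d * t3
  -- positivity of the sine
  have hsin' : rho d (gg d c x) * sin (b - φ') = sin b - d * sin (2 * π * x + b) := by
    rw [sin_sub]
    have : rho d (gg d c x) * (sin b * cos φ' - cos b * sin φ') =
        pA d (gg d c x) * sin b - pB d (gg d c x) * cos b := by
      rw [← e1', ← e2']; ring
    rw [this, hA', hB']
    linear_combination -d * t2
  have t6 : sin b = sin a * cos φ - cos a * sin φ := by rw [hb, sin_sub]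
  have t7 : cos b = cos a * cos φ + sin a * sin φ := by rw [hb, cos_sub]
  have hS : rho d x * (sin b - d * sin (2 * π * x + b)) = (1 - d ^ 2) * sin a - 2 * pB d x * cos a := by
    have f1 : rho d x * sin b = pA d x * sin a - pB d x * cos a := by
      rw [t6, ← e1, ← e2]; ring
    have f2 : rho d x * cos b = pA d x * cos a + pB d x * sin a := by
      rw [t7, ← e1, ← e2]; ring
    rw [t4]
    have : rho d x * (sin b - d * (sin (2 * π * x) * cos b + cos (2 * π * x) * sin b)) =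
      (rho d x * sin b) * (1 - d * cos (2 * π * x)) - pB d x * (rho d x * cos b) := by
      unfold pB; ring
    rw [this, f1, f2]
    unfold pA pB
    have hsc := sin_sq_add_cos_sq (2 * π * x)
    linear_combination (- d ^ 2 * sin a) * hsc
  have hpos : 0 < (1 - d ^ 2) * sin a - 2 * pB d x * cos a := by
    refine alg_ineq h0 h1 hr (rho_sq x) ?_ (neg_one_le_cos (2 * π * x)) hc hsina hcosa
      (sin_sq_add_cos_sq a)
    unfold pB
    have := sin_sq_add_cos_sq (2 * π * x)
    linear_combination d ^ 2 * this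
  have hsinpos : 0 < sin (b - φ') := by
    rw [← hS] at hpos
    have h3 : 0 < sin b - d * sin (2 * π * x + b) := (mul_pos_iff_of_pos_left hr).1 hpos
    rw [← hsin'] at h3
    exact (mul_pos_iff_of_pos_left hr').1 h3
  -- range
  have r1 : -(π / 2) < φ ∧ φ < π / 2 := ⟨neg_pi_div_two_lt_arctan _, arctan_lt_pi_div_two _⟩
  have r2 : -(π / 2) < φ' ∧ φ' < π / 2 := ⟨neg_pi_div_two_lt_arctan _, arctan_lt_pi_div_two _⟩
  have hpi := pi_pos
  have q0 : 0 < b - φ' := by
    by_contra hle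
    push Not at hle
    have : sin (b - φ') ≤ 0 := sin_nonpos_of_nonpos_of_neg_pi_le hle (by rw [hb]; linarith [r1.2, r2.2])
    linarith
  have qπ : b - φ' < π := by
    by_contra hle
    push Not at hle
    have h3 : sin (b - φ') = - sin (b - φ' - π) := by rw [sin_sub_pi]; ring
    have h4 : 0 ≤ sin (b - φ' - π) :=
      sin_nonneg_of_nonneg_of_le_pi (by linarith) (by rw [hb]; linarith [r1.1, r2.1])
    linarith
  have hfin : ac d c (gg d c x) = b - φ' := by
    unfold ac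
    have : c / rho d (gg d c x) = cos (b - φ') := by
      rw [div_eq_iff hr'.ne']; linarith [hcos']
    rw [this, arccos_cos q0.le qπ.le]
  unfold RR
  rw [hfin, ← hφ', sub_add_cancel]

end

end Pool.Agent.H782R2.Std
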