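import Pool.Agent.H782R2.SBound
import Pool.Agent.H782R2.SPot

/-!
The potential on the circle; an accelerator orbit for `lam = 3/4`.
-/

open Filter Topology Set Real

namespace Pool.Agent.H782R2.Std

noncomputable section

/-- the potential on the circle -/
def VV (d : ℝ) : UnitAddCircle → ℝ := (show Function.Periodic (V0 d) 1 from V0_per).lift

lemma VV_coe (d x : ℝ) : VV d (x : UnitAddCircle) = V0 d x := rfl

variable {d : ℝ}

lemma phi_cont (h0 : 0 < d) (h1 : d < 1) : Continuous (phi d) := by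
  unfold phi
  refine continuous_arctan.comp (Continuous.div ?_ ?_ fun x => (pA_pos h0 h1 x).ne')
  · unfold pB; fun_prop
  · unfold pA; fun_prop

lemma V0_cont (h0 : 0 < d) (h1 : d < 1) : Continuous (V0 d) := by
  unfold V0
  exact continuous_const.mul (phi_cont h0 h1)

lemma VV_cont (h0 : 0 < d) (h1 : d < 1) : Continuous (VV d) := by
  have hq : IsQuotientMap ((↑) : ℝ → UnitAddCircle) := isQuotientMap_quotient_mk'
  rw [hq.continuous_iff]
  exact V0_cont h0 h1

/-- the value of `d` -/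
def d0 : ℝ := cos (π / 24)

lemma d0_pos : 0 < d0 := cos_pos_of_mem_Ioo ⟨by linarith [pi_pos], by linarith [pi_pos]⟩

lemma d0_lt : d0 < 1 := by
  unfold d0
  rw [← cos_zero]
  exact cos_lt_cos_of_nonneg_of_le_pi (le_refl _) (by linarith [pi_pos]) (by positivity)

lemma V0_half (d : ℝ) : V0 d (1 / 2) = 0 := by
  unfold V0 phi pB
  have : 2 * π * (1 / 2) = π := by ring
  rw [this, sin_pi]; simp

lemma V0_star : V0 d0 (25 / 48) = 11 / 12 := by
  unfold V0 phi pA pB d0
  have h1 : 2 * π * (25 / 48) = π / 24 + π := by ring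
  rw [h1, sin_add_pi, cos_add_pi]
  have hs : 0 < sin (π / 24) := sin_pos_of_pos_of_lt_pi (by positivity) (by linarith [pi_pos])
  have hc : 0 < cos (π / 24) := d0_pos
  have h2 : cos (π / 24) * -sin (π / 24) / (1 + cos (π / 24) * -cos (π / 24)) = -tan (11 * π / 24) := by
    have h3 : 1 + cos (π / 24) * -cos (π / 24) = sin (π / 24) ^ 2 := by
      have := sin_sq_add_cos_sq (π / 24)
      linear_combination -this
    have h4 : 11 * π / 24 = π / 2 - π / 24 := by ring
    rw [h3, h4, tan_eq_sin_div_cos, sin_pi_div_two_sub, cos_pi_div_two_sub]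
    field_simp
  rw [h2, ← tan_neg, arctan_tan (by linarith [pi_pos]) (by linarith [pi_pos])]
  field_simp
  norm_num

lemma V0_low : -(1 / 2) ≤ V0 d0 (29 / 24) := by
  have h1 : V0 d0 (29 / 24) = V0 d0 (5 / 24) := by
    have : (29 / 24 : ℝ) = 5 / 24 + 1 := by norm_num
    rw [this, V0_per]
  rw [h1]
  unfold V0
  have h2 : phi d0 (5 / 24) ≤ π / 4 := by
    unfold phi
    rw [← arctan_one]
    apply arctan_mono
    rw [div_le_one (pA_pos d0_pos d0_lt _)]
    unfold pA pB
    have e : 2 * π * (5 / 24) = 5 * π / 12 := by ring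
    rw [e]
    have h3 : 0 < cos (5 * π / 12) := cos_pos_of_mem_Ioo ⟨by linarith [pi_pos], by linarith [pi_pos]⟩
    have h4 := sin_le_one (5 * π / 12)
    have h5 := d0_pos
    have h6 := d0_lt
    nlinarith [mul_pos h5 h3]
  have hpi := pi_pos
  have h3 : 2 / π * phi d0 (5 / 24) ≤ 2 / π * (π / 4) := mul_le_mul_of_nonneg_left h2 (by positivity)
  have h4 : 2 / π * (π / 4) = 1 / 2 := by field_simp; norm_num
  linarith

/-- the accelerator equation -/
lemma exists_accel : ∃ θ : ℝ, 2 * (3 / 4 * V0 d0 θ) + 3 / 4 * V0 d0 (θ + 3 / 4 * V0 d0 θ) = 1 := by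
  have hc : Continuous fun θ : ℝ => 2 * (3 / 4 * V0 d0 θ) + 3 / 4 * V0 d0 (θ + 3 / 4 * V0 d0 θ) := by
    have := V0_cont d0_pos d0_lt
    fun_prop
  have h0 : 2 * (3 / 4 * V0 d0 (1 / 2)) + 3 / 4 * V0 d0 (1 / 2 + 3 / 4 * V0 d0 (1 / 2)) = 0 := by
    rw [V0_half, mul_zero, mul_zero, add_zero, V0_half, mul_zero, zero_add]
  have h1 : 1 ≤ 2 * (3 / 4 * V0 d0 (25 / 48)) + 3 / 4 * V0 d0 (25 / 48 + 3 / 4 * V0 d0 (25 / 48)) := by
    rw [V0_star]
    have e : (25 / 48 + 3 / 4 * (11 / 12) : ℝ) = 29 / 24 - 0 := by norm_num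
    rw [e, sub_zero]
    have := V0_low
    linarith
  obtain ⟨θ, -, hθ⟩ := intermediate_value_Icc (f := fun θ : ℝ => 2 * (3 / 4 * V0 d0 θ) +
    3 / 4 * V0 d0 (θ + 3 / 4 * V0 d0 θ)) (a := 1 / 2) (b := 25 / 48) (by norm_num) hc.continuousOn
    (show (1 : ℝ) ∈ Icc _ _ from ⟨by rw [h0]; norm_num, h1⟩)
  exact ⟨θ, hθ⟩

theorem no_circle (C : Set Cyl) : ¬ IsInvCircle (VV d0) (3 / 4) C := by
  intro hC
  obtain ⟨M, hM⟩ := orbit_bdd (VV_cont d0_pos d0_lt) hC
  obtain ⟨θ, hθ⟩ := exists_accel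
  set κ := 3 / 4 * V0 d0 θ with hκ
  have step : ∀ m : ℤ, (F (VV d0) (3 / 4))^[3] ((θ : UnitAddCircle), (m : ℝ)) =
      ((θ : UnitAddCircle), ((m + 1 : ℤ) : ℝ)) := by
    intro m
    have s1 : F (VV d0) (3 / 4) ((θ : UnitAddCircle), (m : ℝ)) =
        (((θ + κ : ℝ) : UnitAddCircle), m + κ) := by
      unfold F
      simp only [VV_coe]
      rw [← hκ, ← AddCircle.coe_add]
      refine Prod.ext ?_ rfl
      rw [coe_eq_iff]
      exact ⟨m, by ring⟩
    have s2 : F (VV d0) (3 / 4) (((θ + κ : ℝ) : UnitAddCircle), m + κ) =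
        ((θ : UnitAddCircle), m + 1 - κ) := by
      unfold F
      simp only [VV_coe]
      have e : (m : ℝ) + κ + 3 / 4 * V0 d0 (θ + κ) = m + 1 - κ := by linarith
      rw [e, ← AddCircle.coe_add]
      refine Prod.ext ?_ rfl
      rw [coe_eq_iff]
      exact ⟨m + 1, by push_cast; ring⟩
    have s3 : F (VV d0) (3 / 4) ((θ : UnitAddCircle), (m : ℝ) + 1 - κ) =
        ((θ : UnitAddCircle), ((m + 1 : ℤ) : ℝ)) := by
      unfold F
      simp only [VV_coe]
      rw [← hκ]
      have e : (m : ℝ) + 1 - κ + κ = ((m + 1 : ℤ) : ℝ) := by push_cast; ring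
      rw [e, ← AddCircle.coe_add]
      refine Prod.ext ?_ rfl
      rw [coe_eq_iff]
      exact ⟨m + 1, by push_cast; ring⟩
    rw [Function.iterate_succ_apply, Function.iterate_succ_apply, Function.iterate_succ_apply,
      Function.iterate_zero_apply, s1, s2, s3]
  have many : ∀ (n : ℕ) (m : ℤ), ((F (VV d0) (3 / 4))^[3])^[n] ((θ : UnitAddCircle), (m : ℝ)) =
      ((θ : UnitAddCircle), ((m + n : ℤ) : ℝ)) := by
    intro n
    induction n with
    | zero => intro m; simp
    | succ n ih =>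
      intro m
      rw [Function.iterate_succ_apply, step, ih]
      congr 2
      push_cast
      ring
  obtain ⟨m, hm⟩ := exists_int_lt (-M)
  obtain ⟨n, hn⟩ := exists_nat_gt (M - m)
  have h1 := hM ((θ : UnitAddCircle), (m : ℝ)) hm (3 * n)
  rw [Function.iterate_mul, many] at h1
  push_cast at h1
  linarith

end

end Pool.Agent.H782R2.Std
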