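import Mathlib

/-!
A closed curve of nonzero degree in the cylinder meets every path from the lower to the upper end.
-/

open Filter Topology Set Complex

namespace Pool.Agent.H782R2.Std

/-- a continuous function with integer values is constant -/
lemma const_of_int {g : ℝ → ℝ} (hg : Continuous g) (h : ∀ t, ∃ n : ℤ, g t = n) (s t : ℝ) :
    g s = g t := by
  by_contra hne
  obtain ⟨n, hn⟩ := h s
  obtain ⟨m, hm⟩ := h t
  have key : ∃ c : ℝ, c ∈ uIcc (g s) (g t) ∧ ∀ k : ℤ, c ≠ k := by
    rw [hn, hm] at hne ⊢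
    have hne' : n ≠ m := by rintro rfl; exact hne rfl
    have aux : ∀ (q : ℤ) (k : ℤ), ((q : ℝ) + 1/2) ≠ k := by
      intro q k hk
      have : (2 * q + 1 : ℤ) = 2 * k := by
        have h2 : (2 * (q : ℝ) + 1) = 2 * k := by linarith
        exact_mod_cast h2
      omega
    rcases lt_or_gt_of_ne hne' with h | h
    · refine ⟨n + 1/2, ?_, aux n⟩
      rw [uIcc_of_le (by exact_mod_cast h.le)]
      have h1 : n + 1 ≤ m := h
      have : (n : ℝ) + 1 ≤ m := by exact_mod_cast h1
      constructor <;> linarith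
    · refine ⟨m + 1/2, ?_, aux m⟩
      rw [uIcc_of_ge (by exact_mod_cast h.le)]
      have h1 : m + 1 ≤ n := h
      have : (m : ℝ) + 1 ≤ n := by exact_mod_cast h1
      constructor <;> linarith
  obtain ⟨c, hc, hck⟩ := key
  obtain ⟨x, -, hx⟩ := intermediate_value_uIcc (hg.continuousOn (s := uIcc s t)) hc
  obtain ⟨k, hk⟩ := h x
  exact hck k (hx ▸ hk)

/-- a continuous function with constant exponential is constant -/
lemma const_of_exp {f : ℝ → ℂ} (hf : Continuous f) {c : ℂ} (h : ∀ t, exp (f t) = c) (s t : ℝ) :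
    f s = f t := by
  have h1 : ∀ x, ∃ n : ℤ, f x = f 0 + n * (2 * Real.pi * I) := by
    intro x
    exact (Complex.exp_eq_exp_iff_exists_int).1 ((h x).trans (h 0).symm)
  have hpi : (2 * Real.pi : ℝ) ≠ 0 := by positivity
  have h2 : ∀ x, ∃ n : ℤ, (f x - f 0).im / (2 * Real.pi) = n := by
    intro x
    obtain ⟨n, hn⟩ := h1 x
    refine ⟨n, ?_⟩
    rw [hn]
    rw [div_eq_iff hpi]
    simp
  have h3 : Continuous (fun x => (f x - f 0).im / (2 * Real.pi)) :=
    (Complex.continuous_im.comp (hf.sub continuous_const)).div_const _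
  have h4 := const_of_int h3 h2 s t
  obtain ⟨n, hn⟩ := h1 s
  obtain ⟨m, hm⟩ := h1 t
  rw [div_left_inj' hpi] at h4
  have h6 : (f s - f 0).im = n * (2 * Real.pi) := by rw [hn]; simp
  have h7 : (f t - f 0).im = m * (2 * Real.pi) := by rw [hm]; simp
  rw [h6, h7] at h4
  have h5 : (n : ℝ) = m := mul_right_cancel₀ hpi h4
  have : n = m := by exact_mod_cast h5
  rw [hn, hm, this]

theorem crossing (a b u v : ℝ → ℝ) (k : ℤ) (ha : Continuous a) (hb : Continuous b)
    (hu : Continuous u) (hv : Continuous v) (hpa : a 1 = a 0 + k) (hpb : b 1 = b 0)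
    (h0 : ∀ t, v 0 < b t) (h1 : ∀ t, b t < v 1)
    (hne : ∀ t s, b t = v s → ∀ m : ℤ, a t - u s ≠ m) : k = 0 := by
  set E : ℝ × ℝ → ℂ := fun p => 2 * Real.pi * (((b p.1 - v p.2 : ℝ) : ℂ) + ((a p.1 - u p.2 : ℝ) : ℂ) * I)
    with hE
  have hEc : Continuous E := by
    rw [hE]; fun_prop
  set Ψ : ℝ × ℝ → ℂ := fun p => exp (E p) - 1 with hΨ
  have hΨc : Continuous Ψ := (Complex.continuous_exp.comp hEc).sub continuous_const
  have hre : ∀ p, (E p).re = 2 * Real.pi * (b p.1 - v p.2) := by
    intro p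
    simp [hE]
  have him : ∀ p, (E p).im = 2 * Real.pi * (a p.1 - u p.2) := by
    intro p
    simp [hE]
  have hΨ0 : ∀ p, Ψ p ∈ ({0}ᶜ : Set ℂ) := by
    intro p hp
    have hp' : exp (E p) = 1 := by
      have : Ψ p = 0 := hp
      rw [hΨ] at this
      exact sub_eq_zero.1 this
    obtain ⟨n, hn⟩ := Complex.exp_eq_one_iff.1 hp'
    have e1 := hre p
    have e2 := him p
    rw [hn] at e1 e2
    have f1 : ((n : ℂ) * (2 * Real.pi * I)).re = 0 := by simp
    have f2 : ((n : ℂ) * (2 * Real.pi * I)).im = n * (2 * Real.pi) := by simp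
    rw [f1] at e1
    rw [f2] at e2
    have hpi : (0 : ℝ) < 2 * Real.pi := by positivity
    have h3 : b p.1 = v p.2 := by
      have := (mul_eq_zero.1 e1.symm).resolve_left hpi.ne'
      linarith
    have h4 : a p.1 - u p.2 = n := by
      have : (2 * Real.pi) * (n : ℝ) = (2 * Real.pi) * (a p.1 - u p.2) := by linarith
      exact (mul_left_cancel₀ hpi.ne' this).symm
    exact hne _ _ h3 n h4
  obtain ⟨L, ⟨-, hL⟩, -⟩ := Complex.isCoveringMapOn_exp.existsUnique_continuousMap_lifts
    (⟨Ψ, hΨc⟩ : C(ℝ × ℝ, ℂ)) (a₀ := (0, 0)) (e₀ := Complex.log (Ψ (0, 0)))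
    (by
      show exp (Complex.log (Ψ (0, 0))) = Ψ (0, 0)
      exact Complex.exp_log (hΨ0 _)) hΨ0
  have hL' : ∀ p, exp (L p) = Ψ p := fun p => congrFun hL p
  have hD : ∀ s : ℝ, exp (L (1, s) - L (0, s)) = 1 := by
    intro s
    rw [Complex.exp_sub, hL', hL']
    have : Ψ (1, s) = Ψ (0, s) := by
      simp only [hΨ]
      congr 1
      rw [Complex.exp_eq_exp_iff_exists_int]
      refine ⟨k, ?_⟩
      simp only [hE, hpa, hpb]
      push_cast
      ring
    rw [this]
    exact div_self (hΨ0 _)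
  have hD1 : L (1, 1) - L (0, 1) = L (1, 0) - L (0, 0) :=
    const_of_exp (f := fun s => L (1, s) - L (0, s)) (by fun_prop) hD 1 0
  -- at `s = 1`
  have hΨ1 : ∀ s : ℝ, Ψ (1, s) = Ψ (0, s) := by
    intro s
    have := hD s
    rw [Complex.exp_sub, hL', hL', div_eq_one_iff_eq (hΨ0 _)] at this
    exact this
  have hneg : ∀ t : ℝ, 0 < (-(Ψ (t, 1))).re := by
    intro t
    simp only [hΨ, neg_sub, Complex.sub_re, Complex.one_re]
    have h2 : ‖exp (E (t, 1))‖ < 1 := by
      rw [Complex.norm_exp, hre, Real.exp_lt_one_iff]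
      have := h1 t
      have hpi := Real.pi_pos
      simp only
      nlinarith
    have h3 := Complex.re_le_norm (exp (E (t, 1)))
    linarith
  have e1 : L (1, 1) - L (0, 1) = 0 := by
    have hc : Continuous (fun t : ℝ => L (t, 1) - Complex.log (-(Ψ (t, 1)))) := by
      refine (by fun_prop : Continuous fun t : ℝ => L (t, 1)).sub ?_
      refine Continuous.clog (by fun_prop) fun t => ?_
      exact Or.inl (hneg t)
    have := const_of_exp hc (c := -1) (fun t => by
      rw [Complex.exp_sub, hL', Complex.exp_log (neg_ne_zero.2 (hΨ0 _))]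
      rw [div_neg, div_self (hΨ0 _)]) 1 0
    rw [hΨ1] at this
    linear_combination this
  have hbig : ∀ t : ℝ, ‖exp (-(E (t, 0)))‖ < 1 := by
    intro t
    rw [Complex.norm_exp, Complex.neg_re, hre, Real.exp_lt_one_iff]
    have := h0 t
    have hpi := Real.pi_pos
    simp only
    nlinarith
  have hpos : ∀ t : ℝ, 0 < (1 - exp (-(E (t, 0)))).re := by
    intro t
    rw [Complex.sub_re, Complex.one_re]
    have := Complex.re_le_norm (exp (-(E (t, 0))))
    linarith [hbig t]
  have hne0 : ∀ t : ℝ, (1 - exp (-(E (t, 0)))) ≠ 0 := by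
    intro t h
    have := hpos t
    rw [h] at this
    simp at this
  have hfac : ∀ t : ℝ, Ψ (t, 0) = exp (E (t, 0)) * (1 - exp (-(E (t, 0)))) := by
    intro t
    rw [mul_sub, mul_one, ← Complex.exp_add, add_neg_cancel, Complex.exp_zero]
  have e2 : L (1, 0) - L (0, 0) = E (1, 0) - E (0, 0) := by
    have hc : Continuous (fun t : ℝ => L (t, 0) - E (t, 0) - Complex.log (1 - exp (-(E (t, 0))))) := by
      refine ((by fun_prop : Continuous fun t : ℝ => L (t, 0)).sub (by fun_prop)).sub ?_
      refine Continuous.clog (by fun_prop) fun t => ?_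
      exact Or.inl (hpos t)
    have := const_of_exp hc (c := 1) (fun t => by
      rw [Complex.exp_sub, Complex.exp_sub, hL', Complex.exp_log (hne0 t), hfac,
        mul_div_cancel_left₀ _ (Complex.exp_ne_zero _)]
      exact div_self (hne0 t)) 1 0
    have h3 : exp (-(E (1, 0))) = exp (-(E (0, 0))) := by
      rw [Complex.exp_neg, Complex.exp_neg]
      congr 1
      have := hΨ1 0
      simp only [hΨ] at this
      linear_combination this
    rw [h3] at this
    linear_combination this
  rw [e1, e2] at hD1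
  simp only [hE, hpa, hpb] at hD1
  have h5 : (2 * Real.pi * (k : ℂ) * I : ℂ) = 0 := by
    push_cast at hD1
    linear_combination -hD1
  have h6 : (k : ℂ) = 0 := by
    have hpi : (Real.pi : ℂ) ≠ 0 := by exact_mod_cast Real.pi_ne_zero
    have := mul_eq_zero.1 h5
    rcases this with h | h
    · rcases mul_eq_zero.1 h with h | h
      · exact absurd h (mul_ne_zero two_ne_zero hpi)
      · exact h
    · exact absurd h Complex.I_ne_zero
  exact_mod_cast h6

end Pool.Agent.H782R2.Std
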