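import Pool.Agent.H782R2.SDefs
import Pool.Agent.H782R2.SCross

/-!
An invariant circle bounds all orbits.
-/

open Filter Topology Set

namespace Pool.Agent.H782R2.Std

/-- lifting a continuous curve in the circle -/
lemma exists_lift (f : ℝ → UnitAddCircle) (hf : Continuous f) :
    ∃ a : ℝ → ℝ, Continuous a ∧ ∀ t, ((a t : ℝ) : UnitAddCircle) = f t := by
  obtain ⟨e, he⟩ := QuotientAddGroup.mk_surjective (f 0)
  obtain ⟨L, ⟨-, hL⟩, -⟩ := (AddCircle.isCoveringMap_coe (1 : ℝ)).existsUnique_continuousMap_lifts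
    (⟨f, hf⟩ : C(ℝ, UnitAddCircle)) 0 e he
  exact ⟨L, L.continuous, fun t => congrFun hL t⟩

lemma coe_eq_iff {x y : ℝ} : (x : UnitAddCircle) = y ↔ ∃ m : ℤ, x - y = m := by
  rw [← sub_eq_zero, ← AddCircle.coe_sub, AddCircle.coe_eq_zero_iff]
  constructor
  · rintro ⟨n, hn⟩
    exact ⟨n, by rw [← hn]; simp⟩
  · rintro ⟨n, hn⟩
    exact ⟨n, by rw [hn]; simp⟩

lemma coe_add_one (x : ℝ) : ((x + 1 : ℝ) : UnitAddCircle) = x := by
  rw [coe_eq_iff]
  exact ⟨1, by simp⟩

/-- a closed curve of degree zero is null-homotopic -/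
lemma nullhomotopic_of_degree_zero (γ : C(UnitAddCircle, Cyl)) (a : ℝ → ℝ) (ha : Continuous a)
    (hl : ∀ t : ℝ, ((a t : ℝ) : UnitAddCircle) = (γ t).1) (h : a 1 = a 0) : γ.Nullhomotopic := by
  have hper : ∀ t, a (t + 1) = a t := by
    intro t
    have h1 : ∀ t, ∃ n : ℤ, a (t + 1) - a t = n := by
      intro t
      rw [← coe_eq_iff, hl, hl, coe_add_one]
    have h2 := const_of_int (g := fun t => a (t + 1) - a t) (by fun_prop) h1 t 0
    simp only [zero_add, h, sub_self] at h2
    linarith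
  set â : UnitAddCircle → ℝ := (show Function.Periodic a 1 from hper).lift with hâ
  have hâc : ∀ t : ℝ, â (t : UnitAddCircle) = a t := fun t => rfl
  have hcont : Continuous â := by
    have hq : IsQuotientMap ((↑) : ℝ → UnitAddCircle) := isQuotientMap_quotient_mk'
    rw [hq.continuous_iff]
    exact ha
  let g : C(UnitAddCircle, ℝ × ℝ) := ⟨fun θ => (â θ, (γ θ).2), by fun_prop⟩
  let q : C(ℝ × ℝ, Cyl) := ⟨fun p => ((p.1 : UnitAddCircle), p.2), by fun_prop⟩
  have hγ : γ = q.comp g := by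
    ext1 θ
    obtain ⟨t, rfl⟩ := QuotientAddGroup.mk_surjective θ
    show γ (t : UnitAddCircle) = ((â (t : UnitAddCircle) : UnitAddCircle), (γ (t : UnitAddCircle)).2)
    rw [hâc, hl]
  rw [hγ]
  have hg : g.Nullhomotopic := by
    have := (id_nullhomotopic (ℝ × ℝ)).comp_left g
    simpa using this
  exact hg.comp_right q

variable {V : UnitAddCircle → ℝ} {lam : ℝ}

lemma F_cont (hV : Continuous V) (lam : ℝ) : Continuous (F V lam) := by
  unfold F
  have h : Continuous (fun p : Cyl => p.2 + lam * V p.1) :=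
    continuous_snd.add (continuous_const.mul (hV.comp continuous_fst))
  have hc : Continuous ((↑) : ℝ → UnitAddCircle) := continuous_quotient_mk'
  exact (continuous_fst.add (hc.comp h)).prodMk h

lemma F_inj (V : UnitAddCircle → ℝ) (lam : ℝ) : Function.Injective (F V lam) := by
  rintro ⟨θ, r⟩ ⟨θ', r'⟩ h
  simp only [F, Prod.mk.injEq] at h
  obtain ⟨h1, h2⟩ := h
  rw [h2] at h1
  have h3 : θ = θ' := add_right_cancel h1
  subst h3
  have : r = r' := by linarith
  rw [this]

lemma F_compl {C : Set Cyl} (hC : F V lam '' C = C) {p : Cyl} (hp : p ∉ C) : F V lam p ∉ C := by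
  intro h
  rw [← hC] at h
  obtain ⟨q, hq, he⟩ := h
  exact hp (F_inj V lam he ▸ hq)

/-- no path in the complement of an essential closed curve from below to above -/
lemma no_path (γ : C(UnitAddCircle, Cyl)) (hγ : ¬ γ.Nullhomotopic) {M : ℝ}
    (hM : ∀ θ, |(γ θ).2| ≤ M) {p q : Cyl} (hp : p.2 < -M) (hq : M < q.2) :
    ¬ JoinedIn (range γ)ᶜ p q := by
  rintro ⟨σ, hσ⟩
  apply hγ
  obtain ⟨a, ha, hla⟩ := exists_lift (fun t : ℝ => (γ t).1) (by
    exact continuous_fst.comp (γ.continuous.comp (continuous_quotient_mk')))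
  obtain ⟨u, hu, hlu⟩ := exists_lift (fun t : ℝ => (σ.extend t).1)
    (continuous_fst.comp σ.continuous_extend)
  have hb : Continuous (fun t : ℝ => (γ t).2) :=
    continuous_snd.comp (γ.continuous.comp (continuous_quotient_mk'))
  have hv : Continuous (fun t : ℝ => (σ.extend t).2) := continuous_snd.comp σ.continuous_extend
  obtain ⟨k, hk⟩ : ∃ k : ℤ, a 1 - a 0 = k := by
    rw [← coe_eq_iff, hla, hla]
    congr 2
    rw [coe_eq_iff]; exact ⟨1, by simp⟩
  have h10 : ((1 : ℝ) : UnitAddCircle) = ((0 : ℝ) : UnitAddCircle) := by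
    rw [coe_eq_iff]; exact ⟨1, by simp⟩
  have key := crossing a (fun t : ℝ => (γ t).2) u (fun t : ℝ => (σ.extend t).2) k ha hb hu hv
    (by linarith) (by simp only [h10]) (by
      intro t
      have h1 : (σ.extend 0).2 < -M := by rw [σ.extend_zero]; exact hp
      have h2 := (abs_le.1 (hM t)).1
      linarith) (by
      intro t
      have h1 : M < (σ.extend 1).2 := by rw [σ.extend_one]; exact hq
      have h2 := (abs_le.1 (hM t)).2
      linarith) (by
      intro t s hts m hm
      have h1 : ((a t : ℝ) : UnitAddCircle) = (u s : ℝ) := coe_eq_iff.2 ⟨m, hm⟩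
      rw [hla, hlu] at h1
      have h2 : γ t = σ.extend s := Prod.ext h1 hts
      have h3 : σ.extend s ∈ (range γ)ᶜ := by
        have : σ.extend s = σ (projIcc 0 1 zero_le_one s) := rfl
        rw [this]
        exact hσ _
      exact h3 ⟨_, h2⟩)
  exact nullhomotopic_of_degree_zero γ a ha hla (by rw [key] at hk; simp at hk; linarith)

lemma low_path (M : ℝ) : IsPathConnected {p : Cyl | p.2 < -M} := by
  have h1 : {p : Cyl | p.2 < -M} = (univ : Set UnitAddCircle) ×ˢ Iio (-M) := by
    ext p; simp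
  rw [h1]
  have h2 : IsPathConnected (Iio (-M)) := (convex_Iio _).isPathConnected ⟨-M - 1, by simp⟩
  have h3 : IsPathConnected (univ : Set UnitAddCircle) := by
    have h4 : IsPathConnected (univ : Set ℝ) := convex_univ.isPathConnected univ_nonempty
    have h5 := h4.image (f := ((↑) : ℝ → UnitAddCircle)) continuous_quotient_mk'
    rwa [image_univ_of_surjective QuotientAddGroup.mk_surjective] at h5
  exact h3.prod h2

/-- an invariant circle bounds the orbits that start low enough -/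
theorem orbit_bdd (hV : Continuous V) {C : Set Cyl} (hC : IsInvCircle V lam C) :
    ∃ M : ℝ, ∀ p : Cyl, p.2 < -M → ∀ n : ℕ, ((F V lam)^[n] p).2 ≤ M := by
  obtain ⟨⟨γ, -, hγ, rfl⟩, hinv⟩ := hC
  obtain ⟨M, hM⟩ : ∃ M : ℝ, ∀ θ, |(γ θ).2| ≤ M := by
    obtain ⟨M, hM⟩ := isCompact_univ.exists_bound_of_continuousOn
      (f := fun θ : UnitAddCircle => (γ θ).2) (continuous_snd.comp γ.continuous).continuousOn
    exact ⟨M, fun θ => by simpa using hM θ (mem_univ _)⟩
  obtain ⟨B, hB⟩ : ∃ B : ℝ, ∀ θ, |lam * V θ| ≤ B := by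
    obtain ⟨B, hB⟩ := isCompact_univ.exists_bound_of_continuousOn
      (f := fun θ : UnitAddCircle => lam * V θ) (continuous_const.mul hV).continuousOn
    exact ⟨B, fun θ => by simpa using hB θ (mem_univ _)⟩
  have hB0 : 0 ≤ B := (abs_nonneg _).trans (hB 0)
  have hlow : {p : Cyl | p.2 < -M} ⊆ (range γ)ᶜ := by
    rintro p hp ⟨θ, rfl⟩
    have := (abs_le.1 (hM θ)).1
    have hp' : (γ θ).2 < -M := hp
    linarith
  have hjl : ∀ p q : Cyl, p.2 < -M → q.2 < -M → JoinedIn (range γ)ᶜ p q := fun p q hp hq =>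
    ((low_path M).joinedIn p hp q hq).mono hlow
  set p0 : Cyl := (0, -(M + B + 1)) with hp0
  have hp0l : p0.2 < -M := by simp only [hp0]; linarith
  have hFp0 : (F V lam p0).2 < -M := by
    have : (F V lam p0).2 = p0.2 + lam * V p0.1 := rfl
    rw [this]
    have := (abs_le.1 (hB p0.1)).2
    simp only [hp0] at this ⊢
    linarith
  refine ⟨M, fun p hp n => ?_⟩
  have key : ∀ n : ℕ, JoinedIn (range γ)ᶜ p0 ((F V lam)^[n] p) := by
    intro n
    induction n with
    | zero => exact hjl _ _ hp0l hp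
    | succ n ih =>
      rw [Function.iterate_succ_apply']
      have h1 : JoinedIn (range γ)ᶜ (F V lam p0) (F V lam ((F V lam)^[n] p)) := by
        obtain ⟨σ, hσ⟩ := ih
        refine ⟨σ.map (F_cont hV lam), fun t => ?_⟩
        exact F_compl hinv (hσ t)
      exact (hjl _ _ hp0l hFp0).trans h1
  by_contra hlt
  push Not at hlt
  exact no_path γ hγ hM hp0l hlt (key n)

end Pool.Agent.H782R2.Std
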