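import Mathlib

/-!
Definitions for MP_d23f22_an: the standard-like maps `F_{V,lam}` of the cylinder, their invariant
circles, rotation numbers, Diophantine numbers.
-/

open Filter Topology Set

namespace Pool.Agent.H782R2.Std

/-- The cylinder `𝕋 × ℝ`, `𝕋 = ℝ/ℤ`. -/
abbrev Cyl : Type := UnitAddCircle × ℝ

/-- A function on `𝕋` is real-analytic if its lift to `ℝ` is. -/
def IsAnalytic (V : UnitAddCircle → ℝ) : Prop :=
  AnalyticOnNhd ℝ (fun x : ℝ => V (x : UnitAddCircle)) univ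

/-- The map `F_{V,lam}`: `r' = r + lam V(θ)`, `θ' = θ + r' mod 1`. -/
def F (V : UnitAddCircle → ℝ) (lam : ℝ) (p : Cyl) : Cyl :=
  (p.1 + ((p.2 + lam * V p.1 : ℝ) : UnitAddCircle), p.2 + lam * V p.1)

/-- The lift of `F_{V,lam}` to `ℝ²`. -/
def lift (V : UnitAddCircle → ℝ) (lam : ℝ) (p : ℝ × ℝ) : ℝ × ℝ :=
  (p.1 + (p.2 + lam * V (p.1 : UnitAddCircle)), p.2 + lam * V (p.1 : UnitAddCircle))

/-- `C` is an invariant circle of `F_{V,lam}`: a homotopically non-trivial embedded circle with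
`F_{V,lam}(C) = C`. -/
def IsInvCircle (V : UnitAddCircle → ℝ) (lam : ℝ) (C : Set Cyl) : Prop :=
  (∃ γ : C(UnitAddCircle, Cyl), Function.Injective γ ∧ ¬ γ.Nullhomotopic ∧ C = range γ) ∧
    F V lam '' C = C

/-- `C` has rotation number `ρ`: every orbit `(θ_n, r_n)`, `n ∈ ℤ`, of the lift that starts on
(the lift of) `C` satisfies `(θ_n - θ_0) / n → ρ` as `n → +∞` and as `n → -∞`. -/
def HasRotNum (V : UnitAddCircle → ℝ) (lam : ℝ) (C : Set Cyl) (ρ : ℝ) : Prop :=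
  ∀ z : ℤ → ℝ × ℝ, (∀ n, z (n + 1) = lift V lam (z n)) →
    (((z 0).1 : UnitAddCircle), (z 0).2) ∈ C →
      Tendsto (fun n : ℤ => ((z n).1 - (z 0).1) / n) atTop (𝓝 ρ) ∧
      Tendsto (fun n : ℤ => ((z n).1 - (z 0).1) / n) atBot (𝓝 ρ)

/-- `C` is the graph of a real-analytic function `R : 𝕋 → ℝ`. -/
def IsAnalyticGraph (C : Set Cyl) : Prop :=
  ∃ R : UnitAddCircle → ℝ, IsAnalytic R ∧ C = {p | p.2 = R p.1}

/-- Diophantine numbers. -/
def IsDiophantine (ρ : ℝ) : Prop :=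
  ∃ C d : ℝ, 0 < C ∧ 2 < d ∧ ∀ m n : ℕ, 0 < m → 0 < n → C / (n : ℝ) ^ d < |ρ - m / n|

/-- The threshold property of Q1 (with `Λ = ∞` also allowed): there is no invariant circle of
rotation number `ρ` for `|lam| > Λ`, and there is an analytic one for `|lam| < Λ`. -/
def IsThreshold (V : UnitAddCircle → ℝ) (ρ : ℝ) (Λ : ENNReal) : Prop :=
  (∀ lam : ℝ, Λ < ENNReal.ofReal |lam| → ¬ ∃ C, IsInvCircle V lam C ∧ HasRotNum V lam C ρ) ∧
  (∀ lam : ℝ, ENNReal.ofReal |lam| < Λ →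
    ∃ C, IsInvCircle V lam C ∧ IsAnalyticGraph C ∧ HasRotNum V lam C ρ)

end Pool.Agent.H782R2.Std
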