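import Pool.Agent.H782R2.SRot

/-!
Analytic invariant circles of the integrable map.
-/

open Filter Topology Set Real
open scoped ContDiff

namespace Pool.Agent.H782R2.Std

noncomputable section

variable {d : ℝ}

lemma phi_smooth (h0 : 0 < d) (h1 : d < 1) : ContDiff ℝ ω (phi d) := by
  unfold phi
  refine contDiff_arctan.comp (ContDiff.div ?_ ?_ fun x => (pA_pos h0 h1 x).ne')
  · unfold pB
    exact contDiff_const.mul (contDiff_sin.comp (contDiff_const.mul contDiff_id))
  · unfold pA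
    exact contDiff_const.add (contDiff_const.mul (contDiff_cos.comp (contDiff_const.mul contDiff_id)))

lemma rho_smooth (h0 : 0 < d) (h1 : d < 1) : ContDiff ℝ ω (rho d) := by
  unfold rho
  refine ContDiff.sqrt ?_ fun x => ?_
  · unfold pA pB
    exact ((contDiff_const.add (contDiff_const.mul
      (contDiff_cos.comp (contDiff_const.mul contDiff_id)))).pow 2).add
      ((contDiff_const.mul (contDiff_sin.comp (contDiff_const.mul contDiff_id))).pow 2)
  · have := pA_pos h0 h1 x
    positivity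

lemma V0_smooth (h0 : 0 < d) (h1 : d < 1) : ContDiff ℝ ω (V0 d) := by
  unfold V0
  exact contDiff_const.mul (phi_smooth h0 h1)

lemma RR_smooth (h0 : 0 < d) (h1 : d < 1) {c : ℝ} (hc : |c| < 1 - d) : ContDiff ℝ ω (RR d c) := by
  unfold RR
  refine ContDiff.div_const (ContDiff.add ?_ (phi_smooth h0 h1)) _
  rw [contDiff_iff_contDiffAt]
  intro x
  have hr := rho_pos h0 h1 x
  have hcr : |c / rho d x| < 1 := by
    rw [abs_div, abs_of_pos hr, div_lt_one hr]
    exact hc.trans_le (rho_ge h0 h1 x)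
  obtain ⟨hcr1, hcr2⟩ := abs_lt.1 hcr
  have h2 : ContDiffAt ℝ ω (fun y => c / rho d y) x :=
    contDiffAt_const.div (rho_smooth h0 h1).contDiffAt hr.ne'
  exact (contDiffAt_arccos hcr1.ne' hcr2.ne).comp x h2

/-- the graph on the circle, shifted by an integer -/
def Rh (d c : ℝ) (k : ℤ) : UnitAddCircle → ℝ :=
  (show Function.Periodic (fun x => RR d c x + k) 1 from fun x => by simp only [RR_per]).lift

lemma Rh_coe (c : ℝ) (k : ℤ) (x : ℝ) : Rh d c k (x : UnitAddCircle) = RR d c x + k := rfl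

lemma VV_analytic (h0 : 0 < d) (h1 : d < 1) : IsAnalytic (VV d) :=
  contDiff_omega_iff_analyticOnNhd.1 (V0_smooth h0 h1)

lemma Rh_analytic (h0 : 0 < d) (h1 : d < 1) {c : ℝ} (hc : |c| < 1 - d) (k : ℤ) :
    IsAnalytic (Rh d c k) :=
  contDiff_omega_iff_analyticOnNhd.1 ((RR_smooth h0 h1 hc).add contDiff_const)

lemma Rh_cont (h0 : 0 < d) (h1 : d < 1) {c : ℝ} (hc : |c| < 1 - d) (k : ℤ) :
    Continuous (Rh d c k) := by
  have hq : IsQuotientMap ((↑) : ℝ → UnitAddCircle) := isQuotientMap_quotient_mk'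
  rw [hq.continuous_iff]
  exact ((RR_smooth h0 h1 hc).add contDiff_const).continuous

lemma V0_odd (x : ℝ) : V0 d (-x) = - V0 d x := by
  unfold V0 phi pA pB
  have : 2 * π * (-x) = -(2 * π * x) := by ring
  rw [this, sin_neg, cos_neg, mul_neg, neg_div, arctan_neg]; ring

lemma mean_zero (d : ℝ) :
    ∫ x in (0:ℝ)..1, VV d (x : UnitAddCircle) = 0 := by
  have e : ∫ x in (0:ℝ)..1, VV d (x : UnitAddCircle) = ∫ x in (0:ℝ)..1, V0 d x := rfl
  rw [e]
  have h2 := intervalIntegral.integral_comp_sub_left (fun x => V0 d x) (a := 0) (b := 1) (1 : ℝ)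
  have h3 : ∀ x : ℝ, V0 d (1 - x) = - V0 d x := by
    intro x
    rw [← V0_odd, ← V0_per (-x)]
    congr 1; ring
  simp only [h3, sub_zero, sub_self] at h2
  rw [intervalIntegral.integral_neg] at h2
  linarith

/-- the identity of the circle is not null-homotopic -/
lemma id_not_null : ¬ (ContinuousMap.id UnitAddCircle).Nullhomotopic := by
  rintro ⟨y, ⟨H⟩⟩
  have hc : Continuous ((↑) : ℝ → UnitAddCircle) := continuous_quotient_mk'
  let f : C(ℝ × ℝ, UnitAddCircle) :=
    ⟨fun p => H (projIcc 0 1 zero_le_one p.1, (p.2 : UnitAddCircle)), by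
      refine H.continuous.comp ?_
      exact (continuous_projIcc.comp continuous_fst).prodMk (hc.comp continuous_snd)⟩
  obtain ⟨e, he⟩ := QuotientAddGroup.mk_surjective (f (0, 0))
  obtain ⟨L, ⟨-, hL⟩, -⟩ := (AddCircle.isCoveringMap_coe (1 : ℝ)).existsUnique_continuousMap_lifts
    f (0, 0) e he
  have hL' : ∀ p, ((L p : ℝ) : UnitAddCircle) = f p := fun p => congrFun hL p
  have h1 : ∀ s : ℝ, ∃ n : ℤ, L (s, 1) - L (s, 0) = n := by
    intro s
    rw [← coe_eq_iff, hL', hL']
    show H (_, ((1 : ℝ) : UnitAddCircle)) = H (_, ((0 : ℝ) : UnitAddCircle))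
    have : ((1 : ℝ) : UnitAddCircle) = ((0 : ℝ) : UnitAddCircle) := by
      rw [coe_eq_iff]; exact ⟨1, by simp⟩
    rw [this]
  have h2 := const_of_int (g := fun s => L (s, 1) - L (s, 0)) (by fun_prop) h1 0 1
  -- at `s = 0`
  have f0 : ∀ t : ℝ, f (0, t) = (t : UnitAddCircle) := by
    intro t
    show H (projIcc 0 1 zero_le_one 0, (t : UnitAddCircle)) = _
    rw [projIcc_left]
    exact H.apply_zero _
  have f1 : ∀ t : ℝ, f (1, t) = y := by
    intro t
    show H (projIcc 0 1 zero_le_one 1, (t : UnitAddCircle)) = _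
    rw [projIcc_right]
    exact H.apply_one _
  have h3 := const_of_int (g := fun t => L (0, t) - t) (by fun_prop) (fun t => by
    rw [← coe_eq_iff, hL', f0]) 1 0
  have h4 := const_of_int (g := fun t => L (1, t) - L (1, 0)) (by fun_prop) (fun t => by
    rw [← coe_eq_iff, hL', hL', f1, f1]) 1 0
  linarith

/-- the invariant circle -/
def Cc (d c : ℝ) (k : ℤ) : Set Cyl := {p | p.2 = Rh d c k p.1}

lemma mem_Cc {c : ℝ} {k : ℤ} {x y : ℝ} : ((x : UnitAddCircle), y) ∈ Cc d c k ↔ y = RR d c x + k :=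
  Iff.rfl

lemma gg_surj (h0 : 0 < d) (h1 : d < 1) {c : ℝ} (hc : |c| < 1 - d) :
    Function.Surjective (gg d c) := by
  let f : CircleDeg1Lift := ⟨⟨gg d c, (gg_strictMono h0 h1 hc).monotone⟩, fun x => gg_per _ x⟩
  have : Continuous f := gg_cont h0 h1 c
  exact (CircleDeg1Lift.continuous_iff_surjective f).1 this

/-- one step of the lift along the graph -/
lemma lift_graph (h0 : 0 < d) (h1 : d < 1) {c : ℝ} (hc : |c| < 1 - d) (k : ℤ) (x : ℝ) :
    lift (VV d) 1 (x, RR d c x + k) = (gg d c x + k, RR d c (gg d c x + k) + k) := by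
  have hk : RR d c (gg d c x + k) = RR d c (gg d c x) := by
    have hp : Function.Periodic (RR d c) 1 := RR_per c
    simpa using hp.int_mul k (gg d c x)
  unfold lift
  simp only [VV_coe, one_mul]
  rw [hk, invar h0 h1 hc, ← gg_step]
  refine Prod.ext ?_ ?_
  · show x + (RR d c x + k + V0 d x) = gg d c x + k
    unfold gg
    rw [← gg_step]; ring
  · show RR d c x + k + V0 d x = RR d c x + V0 d x + k
    ring

lemma F_coe (V : UnitAddCircle → ℝ) (lam : ℝ) (p : ℝ × ℝ) :
    F V lam ((p.1 : UnitAddCircle), p.2) = (((lift V lam p).1 : UnitAddCircle), (lift V lam p).2) := by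
  unfold F lift
  simp only [AddCircle.coe_add]

lemma Cc_inv (h0 : 0 < d) (h1 : d < 1) {c : ℝ} (hc : |c| < 1 - d) (k : ℤ) :
    IsInvCircle (VV d) 1 (Cc d c k) := by
  refine ⟨⟨⟨fun θ => (θ, Rh d c k θ), continuous_id.prodMk (Rh_cont h0 h1 hc k)⟩, ?_, ?_, ?_⟩, ?_⟩
  · intro a b h
    exact (Prod.ext_iff.1 h).1
  · intro h
    have := h.comp_right ⟨Prod.fst, continuous_fst⟩
    exact id_not_null this
  · ext p
    constructor
    · intro hp
      exact ⟨p.1, Prod.ext rfl (Eq.symm hp)⟩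
    · rintro ⟨θ, rfl⟩
      rfl
  · ext p
    constructor
    · rintro ⟨⟨θ, r⟩, hq, rfl⟩
      obtain ⟨x, rfl⟩ := QuotientAddGroup.mk_surjective θ
      have hr : r = RR d c x + k := hq
      subst hr
      have h2 := F_coe (VV d) 1 (x, RR d c x + k)
      rw [lift_graph h0 h1 hc] at h2
      have h3 : F (VV d) 1 ((x : UnitAddCircle), RR d c x + k) ∈ Cc d c k := by
        rw [h2]
        exact mem_Cc.2 rfl
      exact h3
    · intro hp
      obtain ⟨θ, r⟩ := p
      obtain ⟨y, rfl⟩ := QuotientAddGroup.mk_surjective θ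
      have hr : r = RR d c y + k := hp
      subst hr
      obtain ⟨x, hx⟩ := gg_surj h0 h1 hc (y - k)
      refine ⟨((x : UnitAddCircle), RR d c x + k), mem_Cc.2 rfl, ?_⟩
      have h2 := F_coe (VV d) 1 (x, RR d c x + k)
      rw [lift_graph h0 h1 hc, hx, sub_add_cancel] at h2
      exact h2

lemma lift_inj (V : UnitAddCircle → ℝ) (lam : ℝ) : Function.Injective (lift V lam) := by
  rintro ⟨x, r⟩ ⟨x', r'⟩ h
  simp only [lift, Prod.mk.injEq] at h
  obtain ⟨h1, h2⟩ := h
  rw [h2] at h1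
  have h3 : x = x' := by linarith
  subst h3
  have : r = r' := by linarith
  rw [this]

lemma iter_est (f : CircleDeg1Lift) (n : ℕ) (x : ℝ) :
    |(f ^ n) x - x - n * f.translationNumber| ≤ 2 := by
  have h1 := f.dist_pow_map_zero_mul_translationNumber_le n
  rw [Real.dist_eq] at h1
  have h2 : |(f ^ n) x - x - (f ^ n) 0| ≤ 1 := by
    set g := f ^ n
    set m := ⌊x⌋
    have ha : (m : ℝ) ≤ x := Int.floor_le x
    have hb : x < m + 1 := Int.lt_floor_add_one x
    have h3 : g 0 + m ≤ g x := by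
      have : g (0 + m) = g 0 + m := g.map_add_int 0 m
      rw [← this, zero_add]
      exact g.monotone ha
    have h4 : g x ≤ g 0 + m + 1 := by
      have h5 : g (0 + ((m + 1 : ℤ) : ℝ)) = g 0 + ((m + 1 : ℤ) : ℝ) := g.map_add_int 0 (m + 1)
      rw [zero_add] at h5
      push_cast at h5
      have h6 := g.monotone hb.le
      linarith
    rw [abs_le]
    constructor <;> linarith
  have h3 : (f ^ n) x - x - n * f.translationNumber =
    ((f ^ n) x - x - (f ^ n) 0) + ((f ^ n) 0 - n * f.translationNumber) := by ring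
  rw [h3]
  exact (abs_add_le _ _).trans (by linarith)

lemma Cc_rot (h0 : 0 < d) (h1 : d < 1) {c : ℝ} (hc : |c| < 1 - d) (k : ℤ) :
    HasRotNum (VV d) 1 (Cc d c k) (tn h0 h1 c + k) := by
  intro z hz hmem
  have hcm : c ∈ Icc (-(1 - d)) (1 - d) := ⟨(abs_lt.1 hc).1.le, (abs_lt.1 hc).2.le⟩
  have hf : ∀ x, cL h0 h1 c x = gg d c x := by
    intro x; rw [cL_apply, cl_eq hcm]
  have hz0 : (z 0).2 = RR d c (z 0).1 + k := mem_Cc.1 hmem
  -- all points of the orbit lie on the graph
  have hpos : ∀ n : ℕ, (z n).2 = RR d c (z n).1 + k := by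
    intro n
    induction n with
    | zero => exact_mod_cast hz0
    | succ n ih =>
      have h2 := hz n
      have h3 : z (n : ℤ) = ((z (n : ℤ)).1, RR d c (z (n : ℤ)).1 + k) := Prod.ext rfl ih
      rw [h3, lift_graph h0 h1 hc] at h2
      push_cast
      rw [h2]
  have hnegs : ∀ n : ℕ, (z (-(n : ℤ))).2 = RR d c (z (-(n : ℤ))).1 + k := by
    intro n
    induction n with
    | zero => simpa using hz0
    | succ n ih =>
      have h2 := hz (-((n + 1 : ℕ) : ℤ))
      have e : -((n + 1 : ℕ) : ℤ) + 1 = -(n : ℤ) := by push_cast; ring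
      rw [e] at h2
      obtain ⟨x, hx⟩ := gg_surj h0 h1 hc ((z (-(n : ℤ))).1 - k)
      have h3 : lift (VV d) 1 (x, RR d c x + k) = z (-(n : ℤ)) := by
        rw [lift_graph h0 h1 hc, hx, sub_add_cancel]
        exact Prod.ext rfl ih.symm
      have h4 := lift_inj _ _ (h3.trans h2)
      rw [← h4]
  have hall : ∀ n : ℤ, (z n).2 = RR d c (z n).1 + k := by
    intro n
    rcases Int.eq_nat_or_neg n with ⟨m, rfl | rfl⟩
    · exact hpos m
    · exact hnegs m
  have hstep : ∀ n : ℤ, (z (n + 1)).1 = gg d c (z n).1 + k := by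
    intro n
    have h2 := hz n
    have h3 : z n = ((z n).1, RR d c (z n).1 + k) := Prod.ext rfl (hall n)
    rw [h3, lift_graph h0 h1 hc] at h2
    rw [h2]
  set f := cL h0 h1 c with hfdef
  -- normalised orbit
  have hiter : ∀ (m : ℕ) (n : ℤ), (z (n + m)).1 - m * k = (f ^ m) (z n).1 := by
    intro m
    induction m with
    | zero => intro n; simp
    | succ m ih =>
      intro n
      have e : n + ((m + 1 : ℕ) : ℤ) = (n + m) + 1 := by push_cast; ring
      rw [e, hstep, pow_succ']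
      show _ = f ((f ^ m) (z n).1)
      rw [← ih, ← hf]
      have h5 : f ((z (n + m)).1 - m * k) = f ((z (n + m)).1) - m * k := by
        have h6 := f.map_sub_int ((z (n + m)).1) (m * k)
        push_cast at h6
        exact h6
      rw [h5]
      push_cast
      ring
  have hest : ∀ n : ℤ, |(z n).1 - (z 0).1 - n * (tn h0 h1 c + k)| ≤ 2 := by
    intro n
    rcases Int.eq_nat_or_neg n with ⟨m, rfl | rfl⟩
    · have h2 := iter_est f m (z 0).1
      rw [← hiter m 0, zero_add] at h2
      have e : (z (m : ℤ)).1 - (z 0).1 - ((m : ℤ) : ℝ) * (tn h0 h1 c + k) =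
          (z (m : ℤ)).1 - m * k - (z 0).1 - m * f.translationNumber := by
        push_cast
        rw [show tn h0 h1 c = f.translationNumber from rfl]; ring
      rw [e]
      exact h2
    · have h2 := iter_est f m (z (-(m : ℤ))).1
      rw [← hiter m (-(m : ℤ)), neg_add_cancel] at h2
      have e : (z (-(m : ℤ))).1 - (z 0).1 - ((-(m : ℤ) : ℤ) : ℝ) * (tn h0 h1 c + k) =
          -((z 0).1 - m * k - (z (-(m : ℤ))).1 - m * f.translationNumber) := by
        push_cast
        rw [show tn h0 h1 c = f.translationNumber from rfl]; ring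
      rw [e, abs_neg]
      exact h2
  have hlim : ∀ l : Filter ℤ, Tendsto (fun n : ℤ => (2 : ℝ) / |(n : ℝ)|) l (𝓝 0) →
      (∀ᶠ n : ℤ in l, n ≠ 0) →
      Tendsto (fun n : ℤ => ((z n).1 - (z 0).1) / n) l (𝓝 (tn h0 h1 c + k)) := by
    intro l hl hne
    rw [tendsto_iff_norm_sub_tendsto_zero]
    refine squeeze_zero' (Eventually.of_forall fun _ => norm_nonneg _) ?_ hl
    filter_upwards [hne] with n hn
    have hn' : (n : ℝ) ≠ 0 := by exact_mod_cast hn
    have e : ((z n).1 - (z 0).1) / n - (tn h0 h1 c + k) =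
        ((z n).1 - (z 0).1 - n * (tn h0 h1 c + k)) / n := by field_simp
    rw [e, norm_div, Real.norm_eq_abs, Real.norm_eq_abs]
    gcongr
    exact hest n
  constructor
  · refine hlim atTop ?_ (eventually_ne_atTop 0)
    exact (tendsto_abs_atTop_atTop.comp tendsto_intCast_atTop_atTop).const_div_atTop 2
  · refine hlim atBot ?_ (eventually_ne_atBot 0)
    exact (tendsto_abs_atBot_atTop.comp (tendsto_intCast_atBot_iff.2 tendsto_id)).const_div_atTop 2

/-- analytic invariant circles of every nonintegral rotation number -/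
theorem all_circles (h0 : 0 < d) (h1 : d < 1) {r : ℝ} (hr : ∀ k : ℤ, r ≠ k) :
    ∃ C, IsInvCircle (VV d) 1 C ∧ IsAnalyticGraph C ∧ HasRotNum (VV d) 1 C r := by
  have hfr : Int.fract r ∈ Ioo (0 : ℝ) 1 := by
    refine ⟨lt_of_le_of_ne (Int.fract_nonneg r) fun h => ?_, Int.fract_lt_one r⟩
    have := Int.floor_add_fract r
    rw [← h, add_zero] at this
    exact hr _ this.symm
  obtain ⟨c, hc, hcr⟩ := exists_param h0 h1 hfr
  refine ⟨Cc d c ⌊r⌋, Cc_inv h0 h1 hc _, ⟨_, Rh_analytic h0 h1 hc ⌊r⌋, rfl⟩, ?_⟩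
  have := Cc_rot h0 h1 hc ⌊r⌋
  rwa [hcr, Int.fract_add_floor] at this

end

end Pool.Agent.H782R2.Std
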