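import Pool.Agent.H782R2.SAccel

/-!
The circle maps of the integrable map and their rotation numbers.
-/

open Filter Topology Set Real

namespace Pool.Agent.H782R2.Std

noncomputable section

variable {d : ℝ}

lemma rho_cont (d : ℝ) : Continuous (rho d) := by
  unfold rho pA pB; fun_prop

lemma gg_cont2 (h0 : 0 < d) (h1 : d < 1) : Continuous (fun p : ℝ × ℝ => gg d p.1 p.2) := by
  unfold gg ac
  have h2 : Continuous (fun p : ℝ × ℝ => p.1 / rho d p.2) :=
    continuous_fst.div ((rho_cont d).comp continuous_snd) fun p => (rho_pos h0 h1 _).ne'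
  have h3 := continuous_arccos.comp h2
  have h4 : Continuous (fun p : ℝ × ℝ => phi d p.2) := (phi_cont h0 h1).comp continuous_snd
  exact continuous_snd.add ((h3.sub h4).div_const _)

lemma gg_cont (h0 : 0 < d) (h1 : d < 1) (c : ℝ) : Continuous (gg d c) :=
  (gg_cont2 h0 h1).comp (by fun_prop : Continuous fun x : ℝ => (c, x))

lemma gg_step (c x : ℝ) : RR d c x + V0 d x = (ac d c x - phi d x) / π := by
  unfold RR V0; ring

lemma gg_inj (h0 : 0 < d) (h1 : d < 1) {c : ℝ} (hc : |c| < 1 - d) :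
    Function.Injective (gg d c) := by
  intro x y h
  have h2 := invar h0 h1 hc x
  have h3 := invar h0 h1 hc y
  rw [h] at h2
  have h4 : (ac d c x - phi d x) / π = (ac d c y - phi d y) / π := h2.symm.trans h3
  unfold gg at h
  linarith

lemma gg_strictMono (h0 : 0 < d) (h1 : d < 1) {c : ℝ} (hc : |c| < 1 - d) :
    StrictMono (gg d c) := by
  rcases (gg_cont h0 h1 c).strictMono_of_inj (gg_inj h0 h1 hc) with h | h
  · exact h
  · have := h (show (0 : ℝ) < 0 + 1 by norm_num)
    rw [gg_per] at this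
    linarith

lemma gg_mono (h0 : 0 < d) (h1 : d < 1) {c : ℝ} (hc : c ∈ Icc (-(1 - d)) (1 - d)) :
    Monotone (gg d c) := by
  intro x y hxy
  have hcl : IsClosed {c : ℝ | gg d c x ≤ gg d c y} :=
    isClosed_le ((gg_cont2 h0 h1).comp (by fun_prop : Continuous fun c : ℝ => (c, x)))
      ((gg_cont2 h0 h1).comp (by fun_prop : Continuous fun c : ℝ => (c, y)))
  have hsub : Ioo (-(1 - d)) (1 - d) ⊆ {c : ℝ | gg d c x ≤ gg d c y} := by
    intro c hc
    exact (gg_strictMono h0 h1 (abs_lt.2 hc)).monotone hxy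
  have h2 := closure_minimal hsub hcl
  rw [closure_Ioo (by linarith)] at h2
  exact h2 hc

/-- clamping of the parameter -/
def cl (d c : ℝ) : ℝ := max (-(1 - d)) (min c (1 - d))

lemma cl_mem (h1 : d < 1) (c : ℝ) : cl d c ∈ Icc (-(1 - d)) (1 - d) :=
  ⟨le_max_left _ _, max_le (by linarith) (min_le_right _ _)⟩

lemma cl_eq {c : ℝ} (hc : c ∈ Icc (-(1 - d)) (1 - d)) : cl d c = c := by
  unfold cl
  rw [min_eq_left hc.2, max_eq_right hc.1]

lemma cl_cont (d : ℝ) : Continuous (cl d) := by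
  unfold cl; fun_prop

/-- the circle map as a lift -/
def cL (h0 : 0 < d) (h1 : d < 1) (c : ℝ) : CircleDeg1Lift :=
  ⟨⟨gg d (cl d c), gg_mono h0 h1 (cl_mem h1 c)⟩, fun x => gg_per _ x⟩

lemma cL_apply (h0 : 0 < d) (h1 : d < 1) (c x : ℝ) : cL h0 h1 c x = gg d (cl d c) x := rfl

lemma cL_pow_cont (h0 : 0 < d) (h1 : d < 1) (n : ℕ) : Continuous (fun c => ((cL h0 h1 c) ^ n) 0) := by
  induction n with
  | zero => simpa using continuous_const
  | succ n ih =>
    have : (fun c => ((cL h0 h1 c) ^ (n + 1)) 0) =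
        fun c => gg d (cl d c) (((cL h0 h1 c) ^ n) 0) := by
      funext c
      rw [pow_succ']
      rfl
    rw [this]
    exact (gg_cont2 h0 h1).comp ((cl_cont d).prodMk ih)

/-- rotation number as a function of the parameter -/
def tn (h0 : 0 < d) (h1 : d < 1) (c : ℝ) : ℝ := (cL h0 h1 c).translationNumber

lemma tn_cont (h0 : 0 < d) (h1 : d < 1) : Continuous (tn h0 h1) := by
  have hu : TendstoUniformly (fun (n : ℕ) c => ((cL h0 h1 c) ^ (n + 1)) 0 / ((n : ℝ) + 1))
      (tn h0 h1) atTop := by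
    rw [Metric.tendstoUniformly_iff]
    intro ε hε
    have h2 := tendsto_one_div_add_atTop_nhds_zero_nat (𝕜 := ℝ)
    filter_upwards [h2.eventually (gt_mem_nhds hε)] with n hn c
    have h3 := (cL h0 h1 c).dist_pow_map_zero_mul_translationNumber_le (n + 1)
    have hn0 : (0 : ℝ) < (n : ℝ) + 1 := by positivity
    rw [dist_comm, Real.dist_eq]
    rw [Real.dist_eq] at h3
    have h4 : ((cL h0 h1 c) ^ (n + 1)) 0 / ((n : ℝ) + 1) - tn h0 h1 c =
        (((cL h0 h1 c) ^ (n + 1)) 0 - ((n + 1 : ℕ) : ℝ) * (cL h0 h1 c).translationNumber) / ((n : ℝ) + 1) := by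
      unfold tn
      push_cast
      field_simp
    rw [h4, abs_div, abs_of_pos hn0]
    refine lt_of_le_of_lt ?_ hn
    gcongr
  refine hu.continuous (Eventually.of_forall fun n => ?_).frequently
  exact (cL_pow_cont h0 h1 (n + 1)).div_const _

lemma rho_half (h1 : d < 1) : rho d (1 / 2) = 1 - d := by
  unfold rho pA pB
  have : 2 * π * (1 / 2) = π := by ring
  rw [this, cos_pi, sin_pi]
  have e : (1 + d * -1) ^ 2 + (d * 0) ^ 2 = (1 - d) ^ 2 := by ring
  rw [e, sqrt_sq (by linarith)]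

lemma phi_half (d : ℝ) : phi d (1 / 2) = 0 := by
  unfold phi pB
  have : 2 * π * (1 / 2) = π := by ring
  rw [this, sin_pi]; simp

lemma tn_right (h0 : 0 < d) (h1 : d < 1) : tn h0 h1 (1 - d) = 0 := by
  unfold tn
  have : cL h0 h1 (1 - d) (1 / 2) = 1 / 2 + ((0 : ℤ) : ℝ) := by
    rw [cL_apply, cl_eq ⟨by linarith, le_refl _⟩]
    unfold gg ac
    rw [rho_half h1, phi_half, div_self (by linarith), arccos_one]
    simp
  rw [CircleDeg1Lift.translationNumber_of_eq_add_int _ this]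
  simp

lemma tn_left (h0 : 0 < d) (h1 : d < 1) : tn h0 h1 (-(1 - d)) = 1 := by
  unfold tn
  have : cL h0 h1 (-(1 - d)) (1 / 2) = 1 / 2 + ((1 : ℤ) : ℝ) := by
    rw [cL_apply, cl_eq ⟨le_refl _, by linarith⟩]
    unfold gg ac
    have h2 : (1 : ℝ) - d ≠ 0 := by linarith
    rw [rho_half h1, phi_half, neg_div, div_self h2, arccos_neg_one, sub_zero, div_self pi_ne_zero]
    simp
  rw [CircleDeg1Lift.translationNumber_of_eq_add_int _ this]
  simp

/-- all rotation numbers in `(0,1)` occur -/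
lemma exists_param (h0 : 0 < d) (h1 : d < 1) {r : ℝ} (hr : r ∈ Ioo (0 : ℝ) 1) :
    ∃ c : ℝ, |c| < 1 - d ∧ tn h0 h1 c = r := by
  obtain ⟨c, hc, hcr⟩ := intermediate_value_Icc' (f := tn h0 h1) (a := -(1 - d)) (b := 1 - d)
    (by linarith) (tn_cont h0 h1).continuousOn
    (show r ∈ Icc _ _ by rw [tn_right, tn_left]; exact ⟨hr.1.le, hr.2.le⟩)
  refine ⟨c, ?_, hcr⟩
  rw [abs_lt]
  constructor
  · refine lt_of_le_of_ne hc.1 fun h => ?_
    rw [← h, tn_left] at hcr
    linarith [hr.2]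
  · refine lt_of_le_of_ne hc.2 fun h => ?_
    rw [h, tn_right] at hcr
    linarith [hr.1]

end

end Pool.Agent.H782R2.Std
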